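import Pool.Agent.Helper42.SG.GoalsB
import Pool.Agent.Helper29.BL.RH

/-!
# Packet SGB-EPHI (MP_a41896_nt): growth of the duplication polynomials
-/

set_option autoImplicit false

open MvPolynomial

namespace Pool.Agent.Helper62.SGB

open WeierstrassCurve Height
open Pool.Agent.Helper29.BL Pool.Agent.Helper92.Ru Pool.Agent.Helper42.SG

noncomputable section

section plc

variable {K : Type} [Field K] [AdmissibleAbsValues K]

lemma plc_pos {B : AbsoluteValue K ℝ → ℝ} (h : PlC B) (v : AbsoluteValue K ℝ) : 0 < B v :=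
  lt_of_lt_of_le one_pos (h.one_le v)

lemma plc_one : PlC (K := K) fun _ => 1 :=
  ⟨fun _ => le_rfl, by simpa using FS.zero⟩

lemma plc_mul {B B' : AbsoluteValue K ℝ → ℝ} (h : PlC B) (h' : PlC B') :
    PlC fun v => B v * B' v := by
  refine ⟨fun v => one_le_mul_of_one_le_of_one_le (h.one_le v) (h'.one_le v), ?_⟩
  refine (h.fin.add h'.fin).mono fun v _ hv => ?_
  rw [Real.log_mul (plc_pos h v).ne' (plc_pos h' v).ne']
  exact hv

lemma plc_prod {ι : Type} (s : Finset ι) (B : ι → AbsoluteValue K ℝ → ℝ)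
    (h : ∀ i ∈ s, PlC (B i)) : PlC fun v => ∏ i ∈ s, B i v := by
  classical
  induction s using Finset.induction_on with
  | empty => simpa using plc_one
  | insert a s ha ih =>
    have h1 := plc_mul (h a (Finset.mem_insert_self a s))
      (ih fun i hi => h i (Finset.mem_insert_of_mem hi))
    have e1 : (fun v => ∏ i ∈ insert a s, B i v) = fun v => B a v * ∏ i ∈ s, B i v := by
      funext v
      rw [Finset.prod_insert ha]
    rw [e1]
    exact h1

lemma plc_cst {c : ℝ} (hc : 1 ≤ c) : PlC (K := K) fun v => cst v c :=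
  ⟨fun v => one_le_cst v hc, FS_log_cst c⟩

lemma plc_Mv (a : K) : PlC fun v => Mv v a :=
  ⟨fun v => one_le_Mv v a, FS_log_Mv a⟩

lemma le_prod_one {ι : Type} (s : Finset ι) (f : ι → ℝ) (h : ∀ i ∈ s, 1 ≤ f i) {i : ι}
    (hi : i ∈ s) : f i ≤ ∏ j ∈ s, f j := by
  classical
  rw [← Finset.mul_prod_erase s f hi]
  have h1 : 1 ≤ ∏ j ∈ s.erase i, f j := by
    calc (1 : ℝ) = ∏ _j ∈ s.erase i, 1 := by simp
      _ ≤ _ := Finset.prod_le_prod (fun _ _ => zero_le_one)
        (fun j hj => h j (Finset.mem_of_mem_erase hj))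
  have h2 := h i hi
  nlinarith

/-- Quadratic forms are bounded by place constants. -/
lemma hom_le (p : MvPolynomial (Fin 3) K) (hp : p.IsHomogeneous 2) :
    ∃ B : AbsoluteValue K ℝ → ℝ, PlC B ∧ ∀ (v : AbsoluteValue K ℝ) (x : Fin 3 → K) (m : ℝ),
      0 ≤ m → (∀ i, v (x i) ≤ m) → v (eval x p) ≤ B v * m ^ 2 := by
  have hc1 : (1 : ℝ) ≤ (p.support.card : ℝ) + 1 := by
    have : (0 : ℝ) ≤ (p.support.card : ℝ) := Nat.cast_nonneg _
    linarith
  refine ⟨fun v => cst v ((p.support.card : ℝ) + 1) * ∏ d ∈ p.support, Mv v (coeff d p),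
    plc_mul (plc_cst hc1) (plc_prod _ _ fun d _ => plc_Mv _), ?_⟩
  intro v x m hm hx
  rw [MvPolynomial.eval_eq]
  have hprod0 : 0 ≤ ∏ d ∈ p.support, Mv v (coeff d p) :=
    Finset.prod_nonneg fun d _ => (Mv_pos v _).le
  have h1 : ∀ d ∈ p.support, v (coeff d p * ∏ i ∈ d.support, x i ^ d i) ≤
      (∏ d ∈ p.support, Mv v (coeff d p)) * m ^ 2 := by
    intro d hd
    rw [map_mul, map_prod]
    apply mul_le_mul
    · exact (le_Mv v _).trans (le_prod_one p.support (fun d => Mv v (coeff d p))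
        (fun i _ => one_le_Mv v _) hd)
    · have hdeg : ∑ i ∈ d.support, d i = 2 := by
        have := hp (MvPolynomial.mem_support_iff.1 hd)
        rw [Finsupp.weight_apply, Finsupp.sum] at this
        simpa using this
      calc ∏ i ∈ d.support, v (x i ^ d i) ≤ ∏ i ∈ d.support, m ^ d i := by
            apply Finset.prod_le_prod
            · intro i _; exact v.nonneg _
            · intro i _
              rw [map_pow]
              exact pow_le_pow_left₀ (v.nonneg _) (hx i) _
        _ = m ^ 2 := by rw [Finset.prod_pow_eq_pow_sum, hdeg]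
    · exact Finset.prod_nonneg fun i _ => v.nonneg _
    · exact hprod0
  have h2 := abv_sum_le v p.support (fun d => coeff d p * ∏ i ∈ d.support, x i ^ d i)
    (mul_nonneg hprod0 (pow_nonneg hm 2)) h1 (c := (p.support.card : ℝ) + 1) (by linarith)
  calc _ ≤ _ := h2
    _ = _ := by ring

end plc

section main

variable {K : Type} [Field K] (W : Affine K)

lemma eval_sub0 (t z : K) : (addSubMap W 0).eval ![t ^ 2, 2 * t * z, z ^ 2] = Ah W t z := by
  simp [addSubMap, Ah]
  ring

lemma eval_sub1 (t z : K) : (addSubMap W 1).eval ![t ^ 2, 2 * t * z, z ^ 2] = Bh W t z := by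
  simp [addSubMap, Bh]
  ring

lemma eval_sub2 (t z : K) : (addSubMap W 2).eval ![t ^ 2, 2 * t * z, z ^ 2] = 0 := by
  simp [addSubMap]
  ring

/-- One step. -/
lemma step [NumberField K] [W.IsElliptic] : ∃ B : AbsoluteValue K ℝ → ℝ, PlC B ∧ ∀ (v : AbsoluteValue K ℝ) (t z : K),
    max (v t) (v z) ^ 4 ≤ B v * max (v (Ah W t z)) (v (Bh W t z)) := by
  have hh : ∀ ij : Fin 3 × Fin 3,
      (C (↑W.Δ'⁻¹ : K) * addSubMapCoeff W ij).IsHomogeneous 2 := by
    intro ij
    have := (isHomogeneous_C (Fin 3) (↑W.Δ'⁻¹ : K)).mul (isHomogeneous_addSubMapCoeff W ij)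
    rwa [zero_add] at this
  choose G hG1 hG2 using fun ij => hom_le (K := K) _ (hh ij)
  refine ⟨fun v => cst v 2 * (∏ ij : Fin 3 × Fin 3, G ij v) * (cst v 2 * cst v 2),
    plc_mul (plc_mul (plc_cst (by norm_num)) (plc_prod _ _ fun ij _ => hG1 ij))
      (plc_mul (plc_cst (by norm_num)) (plc_cst (by norm_num))), ?_⟩
  intro v t z
  set m : ℝ := max (v t) (v z) with hm
  set M : ℝ := max (v (Ah W t z)) (v (Bh W t z)) with hM
  set x : Fin 3 → K := ![t ^ 2, 2 * t * z, z ^ 2] with hx
  set P : ℝ := ∏ ij : Fin 3 × Fin 3, G ij v with hP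
  have hm0 : 0 ≤ m := (v.nonneg t).trans (le_max_left _ _)
  have hM0 : 0 ≤ M := (v.nonneg _).trans (le_max_left _ _)
  have htm : v t ≤ m := le_max_left _ _
  have hzm : v z ≤ m := le_max_right _ _
  have hc2 : 1 ≤ cst v 2 := one_le_cst v (by norm_num)
  have hP1 : 1 ≤ P := (plc_prod (K := K) Finset.univ G fun ij _ => hG1 ij).one_le v
  have hv2 : v (2 : K) ≤ cst v 2 := by
    have h1 := abv_add_le v (1 : K) 1 (B := 1) (by rw [map_one]) (by rw [map_one])
    rw [one_add_one_eq_two, mul_one] at h1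
    exact h1
  have hxi : ∀ i, v (x i) ≤ cst v 2 * m ^ 2 := by
    intro i
    fin_cases i
    · show v (t ^ 2) ≤ _
      rw [map_pow]
      have : v t ^ 2 ≤ m ^ 2 := pow_le_pow_left₀ (v.nonneg t) htm 2
      nlinarith [pow_nonneg hm0 2]
    · show v (2 * t * z) ≤ _
      rw [map_mul, map_mul]
      calc v 2 * v t * v z ≤ cst v 2 * m * m := by
            apply mul_le_mul (mul_le_mul hv2 htm (v.nonneg _) (by linarith)) hzm (v.nonneg _)
            exact mul_nonneg (by linarith) hm0
        _ = _ := by ring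
    · show v (z ^ 2) ≤ _
      rw [map_pow]
      have : v z ^ 2 ≤ m ^ 2 := pow_le_pow_left₀ (v.nonneg z) hzm 2
      nlinarith [pow_nonneg hm0 2]
  have key : ∀ i : Fin 3, v (x i ^ 4) ≤ cst v 2 * (P * (cst v 2 * m ^ 2) ^ 2 * M) := by
    intro i
    have h1 := addSubMapCoeff_condition W x i
    rw [Fin.sum_univ_three, hx, eval_sub0, eval_sub1, eval_sub2, mul_zero, add_zero, ← hx] at h1
    rw [← h1]
    apply abv_add_le
    · rw [map_mul]
      apply mul_le_mul _ (le_max_left _ _) (v.nonneg _) (by positivity)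
      refine (hG2 (i, 0) v x _ (by positivity) hxi).trans ?_
      apply mul_le_mul_of_nonneg_right _ (by positivity)
      exact le_prod_one Finset.univ (fun ij => G ij v) (fun ij _ => (hG1 ij).one_le v)
        (Finset.mem_univ (i, (0 : Fin 3)))
    · rw [map_mul]
      apply mul_le_mul _ (le_max_right _ _) (v.nonneg _) (by positivity)
      refine (hG2 (i, 1) v x _ (by positivity) hxi).trans ?_
      apply mul_le_mul_of_nonneg_right _ (by positivity)
      exact le_prod_one Finset.univ (fun ij => G ij v) (fun ij _ => (hG1 ij).one_le v)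
        (Finset.mem_univ (i, (1 : Fin 3)))
  have h8 : m ^ 8 ≤ cst v 2 * (P * (cst v 2 * m ^ 2) ^ 2 * M) := by
    rcases le_total (v t) (v z) with h | h
    · have h1 := key 2
      have h2 : v (x 2 ^ 4) = v z ^ 8 := by
        show v ((z ^ 2) ^ 4) = _
        rw [← pow_mul, map_pow]
      rw [h2] at h1
      have : m = v z := max_eq_right h
      rw [this] at h1 ⊢
      exact h1
    · have h1 := key 0
      have h2 : v (x 0 ^ 4) = v t ^ 8 := by
        show v ((t ^ 2) ^ 4) = _
        rw [← pow_mul, map_pow]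
      rw [h2] at h1
      have : m = v t := max_eq_left h
      rw [this] at h1 ⊢
      exact h1
  rcases hm0.eq_or_lt with h0 | h0
  · rw [← h0]
    have : (0 : ℝ) ≤ cst v 2 * P * (cst v 2 * cst v 2) * M := by positivity
    simpa using this
  · have h4 : 0 < m ^ 4 := pow_pos h0 4
    have h5 : m ^ 4 * m ^ 4 ≤ (cst v 2 * P * (cst v 2 * cst v 2) * M) * m ^ 4 := by
      calc m ^ 4 * m ^ 4 = m ^ 8 := by ring
        _ ≤ _ := h8
        _ = _ := by ring
    exact le_of_mul_le_mul_right h5 h4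

end main

/-- **EPHI**. -/
theorem ephi : EPHI := by
  intro K _ _ W _
  obtain ⟨B, hB, hstep⟩ := step W
  refine ⟨B, hB, ?_⟩
  have hmain : ∀ (v : AbsoluteValue K ℝ) (x : K) (e : ℕ), ∃ s : ℕ, s + 1 ≤ 4 ^ e ∧
      Mv v x ^ (4 ^ e) ≤
        B v ^ s * max (v (Ph W e x).1) (v (Ph W e x).2) := by
    intro v x e
    induction e with
    | zero =>
      refine ⟨0, by norm_num, ?_⟩
      simp only [pow_zero, pow_one, one_mul, Ph, Mv, map_one]
      rw [max_comm]
    | succ e ih =>
      obtain ⟨s, hs, h⟩ := ih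
      refine ⟨4 * s + 1, by rw [pow_succ]; omega, ?_⟩
      have hM : 0 ≤ Mv v x := (Mv_pos v x).le
      have hB0 : 0 ≤ B v := (plc_pos hB v).le
      calc Mv v x ^ (4 ^ (e + 1))
          = (Mv v x ^ (4 ^ e)) ^ 4 := by rw [← pow_mul, pow_succ]
        _ ≤ (B v ^ s * max (v (Ph W e x).1) (v (Ph W e x).2)) ^ 4 :=
            pow_le_pow_left₀ (pow_nonneg hM _) h 4
        _ = B v ^ (4 * s) * max (v (Ph W e x).1) (v (Ph W e x).2) ^ 4 := by
            rw [mul_pow, ← pow_mul, mul_comm s 4]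
        _ ≤ B v ^ (4 * s) * (B v * max (v (Ah W (Ph W e x).1 (Ph W e x).2))
              (v (Bh W (Ph W e x).1 (Ph W e x).2))) :=
            mul_le_mul_of_nonneg_left (hstep v _ _) (pow_nonneg hB0 _)
        _ = B v ^ (4 * s + 1) * max (v (Ph W (e + 1) x).1) (v (Ph W (e + 1) x).2) := by
            rw [pow_succ, mul_assoc]
            rfl
  intro v e x
  obtain ⟨s, hs, h⟩ := hmain v x e
  refine h.trans (mul_le_mul_of_nonneg_right ?_ ((v.nonneg _).trans (le_max_left _ _)))
  exact pow_le_pow_right₀ (hB.one_le v) (by omega)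

end

end Pool.Agent.Helper62.SGB
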